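import Pool.Agent.W46.HM.Stm

/-!
# Shells around a point
-/

set_option autoImplicit false

open Finset
open scoped Classical

namespace Pool.Agent.W32.HM
open Pool.Agent.W904.AK Pool.Agent.W46.HD Pool.Agent.W46.HM

lemma fib {Θ : Type} [Fintype Θ] {α : Type} (k : Θ → α) (f : Θ → ℝ) :
    ∑ y, f y = ∑ c ∈ univ.image k, ∑ y, if k y = c then f y else 0 := by
  rw [Finset.sum_comm]
  refine Finset.sum_congr rfl fun y _ => ?_
  rw [Finset.sum_ite_eq, if_pos (Finset.mem_image_of_mem _ (Finset.mem_univ _))]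

/-- Abel summation on each fibre. -/
lemma abel_fib (hA : S_ABEL) {Θ : Type} [Fintype Θ] {α : Type} (μ : Θ → ℝ) (hμ : IsLaw μ)
    (tm : Θ → ℕ) (k : Θ → α) :
    ∑ y, μ y * -Real.log (∑ z, (if tm y ≤ tm z ∧ k z = k y then μ z else 0)) ≤ 1 + H μ k := by
  have h1 : ∀ c : α, ∑ y, (if k y = c then
      μ y * -Real.log (∑ z, (if tm y ≤ tm z ∧ k z = k y then μ z else 0)) else 0) ≤
      ∑ y, if k y = c then μ y * (1 - Real.log (im μ k (k y))) else 0 := by
    intro c
    have h2 := hA Θ (fun z => if k z = c then μ z else 0) tm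
      (fun s => by split_ifs; exacts [hμ.nonneg s, le_rfl])
    have h3 : (∑ y, if k y = c then μ y else 0) = im μ k c := rfl
    rw [h3] at h2
    have h4 : ∑ y, (if k y = c then μ y * (1 - Real.log (im μ k (k y))) else 0) =
        im μ k c * (1 - Real.log (im μ k c)) := by
      rw [← h3, Finset.sum_mul]
      refine Finset.sum_congr rfl fun y _ => ?_
      by_cases h : k y = c
      · rw [if_pos h, if_pos h, h, h3]
      · rw [if_neg h, if_neg h, zero_mul]
    rw [h4]
    refine le_trans (le_of_eq ?_) h2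
    refine Finset.sum_congr rfl fun y _ => ?_
    by_cases h : k y = c
    · rw [if_pos h, if_pos h]
      congr 3
      refine Finset.sum_congr rfl fun z _ => ?_
      by_cases h5 : tm y ≤ tm z
      · by_cases h6 : k z = c
        · rw [if_pos ⟨h5, h6.trans h.symm⟩, if_pos h5, if_pos h6]
        · rw [if_neg (fun h7 => h6 (h7.2.trans h)), if_pos h5, if_neg h6]
      · rw [if_neg (fun h7 => h5 h7.1), if_neg h5]
    · rw [if_neg h, if_neg h, zero_mul]
  rw [fib k]
  refine (Finset.sum_le_sum fun c _ => h1 c).trans (le_of_eq ?_)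
  rw [← fib k]
  have h5 : ∀ y, μ y * (1 - Real.log (im μ k (k y))) = μ y + μ y * -Real.log (im μ k (k y)) := by
    intro y; ring
  simp only [h5]
  rw [Finset.sum_add_distrib, hμ.total]
  rfl

/-- The natural distance to `x`. -/
def ds (x y : ℕ) : ℕ := (y - x) + (x - y)

lemma ds_abs (x y : ℕ) : |(x : ℝ) - (y : ℝ)| = (ds x y : ℝ) := by
  unfold ds
  rcases le_total x y with h | h
  · rw [Nat.sub_eq_zero_of_le h, add_zero, Nat.cast_sub h, abs_sub_comm]
    exact abs_of_nonneg (sub_nonneg.2 (by exact_mod_cast h))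
  · rw [Nat.sub_eq_zero_of_le h, zero_add, Nat.cast_sub h]
    exact abs_of_nonneg (sub_nonneg.2 (by exact_mod_cast h))

/-- The side. -/
def sd (x y : ℕ) : Fin 3 := if y = x then 0 else if x < y then 1 else 2

lemma log_bd {a b : ℕ} (ha : a ≠ 0) (h : Nat.log 2 b = Nat.log 2 a) : b < 2 * a := by
  have h1 : 2 ^ Nat.log 2 a ≤ a := Nat.pow_log_le_self 2 ha
  have h2 : b < 2 ^ (Nat.log 2 b + 1) := Nat.lt_pow_succ_log_self (by norm_num) b
  rw [h, pow_succ] at h2
  omega

lemma shell_dist (x y z : ℕ) (h1 : sd x z = sd x y)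
    (h2 : Nat.log 2 (ds x z) = Nat.log 2 (ds x y)) :
    |(z : ℝ) - (y : ℝ)| ≤ max 1 |(x : ℝ) - (y : ℝ)| := by
  have key : z ≤ y + ds x y ∧ y ≤ z + ds x y := by
    unfold sd at h1
    by_cases hy : y = x
    · subst hy
      by_cases hz : z = y
      · subst hz; omega
      · rw [if_neg hz, if_pos rfl] at h1
        split_ifs at h1 <;> exact absurd h1 (by decide)
    · by_cases hz : z = x
      · subst hz
        rw [if_neg hy, if_pos rfl] at h1
        split_ifs at h1 <;> exact absurd h1 (by decide)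
      · rw [if_neg hy, if_neg hz] at h1
        have h3 : ds x y ≠ 0 := by unfold ds; omega
        have h4 : ds x z ≠ 0 := by unfold ds; omega
        have h5 := log_bd h3 h2
        by_cases hxy : x < y
        · by_cases hxz : x < z
          · unfold ds at *; omega
          · rw [if_pos hxy, if_neg hxz] at h1
            exact absurd h1 (by decide)
        · by_cases hxz : x < z
          · rw [if_neg hxy, if_pos hxz] at h1
            exact absurd h1 (by decide)
          · unfold ds at *; omega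
  refine le_trans ?_ (le_max_right _ _)
  rw [ds_abs x y, abs_le]
  have k1 : (z : ℝ) ≤ y + ds x y := by exact_mod_cast key.1
  have k2 : (y : ℝ) ≤ z + ds x y := by exact_mod_cast key.2
  constructor <;> linarith

lemma log_shell (x y : ℕ) :
    |(Nat.log 2 (ds x y) : ℝ) * Real.log 2 - Real.log (max 1 |(x : ℝ) - (y : ℝ)|)| ≤
      Real.log 2 := by
  have h2 : 0 < Real.log 2 := Real.log_pos (by norm_num)
  rw [ds_abs]
  by_cases h : ds x y = 0
  · rw [h]
    simp [h2.le]
  · have h1 : (1 : ℝ) ≤ (ds x y : ℝ) := by exact_mod_cast Nat.one_le_iff_ne_zero.2 h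
    rw [max_eq_right h1]
    set D := ds x y
    set k := Nat.log 2 D with hk
    have a1 : 2 ^ k ≤ D := Nat.pow_log_le_self 2 h
    have a2 : D < 2 ^ (k + 1) := Nat.lt_pow_succ_log_self (by norm_num) D
    have b1 : (2 : ℝ) ^ k ≤ D := by exact_mod_cast a1
    have b2 : (D : ℝ) ≤ 2 ^ (k + 1) := by exact_mod_cast a2.le
    have c1 := Real.log_le_log (by positivity) b1
    have c2 := Real.log_le_log (by linarith) b2
    rw [Real.log_pow] at c1 c2
    push_cast at c2
    rw [abs_le]
    constructor <;> nlinarith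

theorem SHELL (hA : S_ABEL) (hH : S_HJ) : S_SHELL := by
  intro ε hε
  obtain ⟨C₀, hC₀, hHJ⟩ := hH ε hε
  have hl2 : 0 < Real.log 2 := Real.log_pos (by norm_num)
  have hl3 : 0 < Real.log 3 := Real.log_pos (by norm_num)
  refine ⟨1 + Real.log 3 + C₀ + ε * Real.log 2, by positivity, ?_⟩
  intro n hn μ hμ tm x θ
  set k : Fin n → ℕ := fun y => Nat.log 2 (ds x y) with hk
  set s : Fin n → Fin 3 := fun y => sd x y with hs
  set kap : Fin n → Fin 3 × ℕ := fun y => (s y, k y) with hkap
  -- comparison with the shells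
  have h1 : ∑ y, μ y * -Real.log (∑ z, (if tm y ≤ tm z ∧
          |((z : ℕ) : ℝ) - (y : ℕ)| ≤ max 1 |((x : ℕ) : ℝ) - (y : ℕ)| then μ z else 0)) ≤
      ∑ y, μ y * -Real.log (∑ z, (if tm y ≤ tm z ∧ kap z = kap y then μ z else 0)) := by
    refine Finset.sum_le_sum fun y _ => ?_
    by_cases hy : μ y = 0
    · rw [hy, zero_mul, zero_mul]
    · refine mul_le_mul_of_nonneg_left (neg_le_neg ?_) (hμ.nonneg y)
      have hpos : 0 < ∑ z, (if tm y ≤ tm z ∧ kap z = kap y then μ z else 0) := by
        have h3 : μ y ≤ ∑ z, (if tm y ≤ tm z ∧ kap z = kap y then μ z else 0) := by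
          have h4 := Finset.single_le_sum
            (f := fun z => if tm y ≤ tm z ∧ kap z = kap y then μ z else 0) (s := univ)
            (fun z _ => by split_ifs; exacts [hμ.nonneg z, le_rfl])
            (Finset.mem_univ y)
          rwa [if_pos ⟨le_rfl, rfl⟩] at h4
        exact lt_of_lt_of_le (lt_of_le_of_ne (hμ.nonneg y) (Ne.symm hy)) h3
      refine Real.log_le_log hpos (Finset.sum_le_sum fun z _ => ?_)
      by_cases h5 : tm y ≤ tm z ∧ kap z = kap y
      · have h6 := h5.2
        simp only [hkap, Prod.mk.injEq] at h6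
        rw [if_pos h5, if_pos ⟨h5.1, shell_dist _ _ _ h6.1 h6.2⟩]
      · rw [if_neg h5]
        split_ifs
        exacts [hμ.nonneg z, le_rfl]
  have h2 : ∑ y, μ y * -Real.log (∑ z, (if tm y ≤ tm z ∧ kap z = kap y then μ z else 0)) ≤
      1 + H μ kap := by
    refine le_trans (le_of_eq ?_) (abel_fib hA μ hμ tm kap)
    refine Finset.sum_congr rfl fun y _ => ?_
    congr 3
    refine Finset.sum_congr rfl fun z _ => ?_
    by_cases h : tm y ≤ tm z ∧ kap z = kap y
    · rw [if_pos h, if_pos h]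
    · rw [if_neg h, if_neg h]
  have h3 : H μ kap ≤ H μ s + H μ k := subadd hμ (Det.refl _ _)
  have h4 : H μ s ≤ Real.log 3 := by
    have := H_le_log_card hμ s univ (fun _ _ => Finset.mem_univ _)
    simpa using this
  have h5 := hHJ (Fin n) μ k θ hμ
  have h6 : ∑ y, μ y * |(k y : ℝ) * Real.log 2 - θ| ≤
      Real.log 2 + ∑ y, μ y * |Real.log (max 1 |((x : ℕ) : ℝ) - (y : ℕ)|) - θ| := by
    have h7 : ∑ y, μ y * Real.log 2 = Real.log 2 := by
      rw [← Finset.sum_mul, hμ.total, one_mul]
    refine le_trans (b := ∑ y, (μ y * Real.log 2 +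
      μ y * |Real.log (max 1 |((x : ℕ) : ℝ) - (y : ℕ)|) - θ|)) ?_
      (le_of_eq (by rw [Finset.sum_add_distrib, h7]))
    refine Finset.sum_le_sum fun y _ => ?_
    rw [← mul_add]
    refine mul_le_mul_of_nonneg_left ?_ (hμ.nonneg y)
    have h8 := log_shell x y
    calc |(k y : ℝ) * Real.log 2 - θ| =
        |((k y : ℝ) * Real.log 2 - Real.log (max 1 |((x : ℕ) : ℝ) - (y : ℕ)|)) +
          (Real.log (max 1 |((x : ℕ) : ℝ) - (y : ℕ)|) - θ)| := by
          congr 1; ring
      _ ≤ _ := (abs_add_le _ _).trans (add_le_add h8 le_rfl)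
  have h9 := mul_le_mul_of_nonneg_left h6 hε.le
  rw [mul_add] at h9
  linarith

end Pool.Agent.W32.HM
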